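import Pool.Agent.W684.BR.Stm

/-! Subtask BR-TREE for helper684. -/

set_option autoImplicit false

namespace Pool.Agent.W804.BR.Tree

open Pool.Agent.W684.BR

/-- nodes -/
@[ext] structure Nd (X : ℕ → ℕ → Set ℝ) : Type where
  s : ℕ → ℕ
  i : ℤ
  d : ℝ
  hs : ∀ k : ℕ, i < (k : ℤ) → s k = 0
  hd : d ∈ lab X s i

variable {X : ℕ → ℕ → Set ℝ}

/-- agreement with `x` up to the level -/
def Agr (p : Nd X) (x : ℕ → ℕ) : Prop := ∀ k : ℕ, (k : ℤ) ≤ p.i → p.s k = x k

instance ndOrder (X : ℕ → ℕ → Set ℝ) : PartialOrder (Nd X) where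
  le p q := Agr p q.s ∧ (p.i < q.i ∨ p.i = q.i ∧ p.d ≤ q.d)
  le_refl p := ⟨fun _ _ => rfl, Or.inr ⟨rfl, le_rfl⟩⟩
  le_trans p q r h1 h2 := by
    have hpq : p.i ≤ q.i := by rcases h1.2 with h | h <;> omega
    have hqr : q.i ≤ r.i := by rcases h2.2 with h | h <;> omega
    refine ⟨fun k hk => (h1.1 k hk).trans (h2.1 k (by omega)), ?_⟩
    rcases h1.2 with h | h
    · exact Or.inl (by omega)
    · rcases h2.2 with h' | h'
      · exact Or.inl (by omega)
      · exact Or.inr ⟨h.1.trans h'.1, h.2.trans h'.2⟩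
  le_antisymm p q h1 h2 := by
    have hi : p.i = q.i := by
      rcases h1.2 with h | h <;> rcases h2.2 with h' | h' <;> omega
    have hd : p.d = q.d := by
      rcases h1.2 with h | h
      · omega
      · rcases h2.2 with h' | h'
        · omega
        · exact le_antisymm h.2 h'.2
    have hs : p.s = q.s := by
      funext k
      by_cases hk : (k : ℤ) ≤ p.i
      · exact h1.1 k hk
      · rw [p.hs k (by omega), q.hs k (by omega)]
    exact Nd.ext hs hi hd

lemma le_def (p q : Nd X) : p ≤ q ↔ Agr p q.s ∧ (p.i < q.i ∨ p.i = q.i ∧ p.d ≤ q.d) := Iff.rfl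

lemma cmp {p q : Nd X} {x : ℕ → ℕ} (hp : Agr p x) (hq : Agr q x) : p ≤ q ∨ q ≤ p := by
  rcases lt_trichotomy p.i q.i with h | h | h
  · exact Or.inl ⟨fun k hk => (hp k hk).trans (hq k (by omega)).symm, Or.inl h⟩
  · rcases le_total p.d q.d with h' | h'
    · exact Or.inl ⟨fun k hk => (hp k hk).trans (hq k (by omega)).symm, Or.inr ⟨h, h'⟩⟩
    · exact Or.inr ⟨fun k hk => (hq k hk).trans (hp k (by omega)).symm, Or.inr ⟨h.symm, h'⟩⟩
  · exact Or.inr ⟨fun k hk => (hq k hk).trans (hp k (by omega)).symm, Or.inl h⟩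

lemma lab_congr {s x : ℕ → ℕ} {i : ℤ} (h : ∀ k : ℕ, (k : ℤ) ≤ i → s k = x k) :
    lab X s i = lab X x i := by
  cases i with
  | ofNat k =>
    have := h k (le_of_eq rfl)
    simp only [lab, this]
  | negSucc j => rfl

/-- the branch of `x` -/
def B (X : ℕ → ℕ → Set ℝ) (x : ℕ → ℕ) : Set (Nd X) := {p | Agr p x}

lemma B_chain (x : ℕ → ℕ) : IsChain (· ≤ ·) (B X x) := by
  intro p hp q hq _
  exact cmp hp hq

/-- the node of `x` at `(i, d)` -/
def nd (x : ℕ → ℕ) (i : ℤ) (d : ℝ) (h : d ∈ lab X x i) : Nd X where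
  s := fun k => if (k : ℤ) ≤ i then x k else 0
  i := i
  d := d
  hs := fun k hk => if_neg (by omega)
  hd := by
    rw [lab_congr (x := x)]
    · exact h
    · intro k hk
      exact if_pos hk

lemma nd_mem (x : ℕ → ℕ) (i : ℤ) (d : ℝ) (h : d ∈ lab X x i) : nd x i d h ∈ B X x :=
  fun _ hk => if_pos hk

/-- the order isomorphism -/
def iso (x : ℕ → ℕ) : ↥(B X x) ≃o ↥(L X x) where
  toFun p := ⟨toLex (p.1.i, p.1.d), by
    show p.1.d ∈ lab X x p.1.i
    rw [← lab_congr (s := p.1.s) p.2]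
    exact p.1.hd⟩
  invFun z := ⟨nd x (ofLex z.1).1 (ofLex z.1).2 z.2, nd_mem _ _ _ _⟩
  left_inv p := by
    apply Subtype.ext
    apply Nd.ext
    · funext k
      show (if (k : ℤ) ≤ p.1.i then x k else 0) = p.1.s k
      split_ifs with h
      · exact (p.2 k h).symm
      · exact (p.1.hs k (by omega)).symm
    · rfl
    · rfl
  right_inv z := rfl
  map_rel_iff' := by
    intro p q
    show toLex (p.1.i, p.1.d) ≤ toLex (q.1.i, q.1.d) ↔ p.1 ≤ q.1
    rw [Prod.Lex.toLex_le_toLex]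
    constructor
    · intro h
      refine ⟨?_, h⟩
      have hi : p.1.i ≤ q.1.i := by
        rcases h with h | h
        · exact le_of_lt h
        · exact le_of_eq h.1
      exact fun k hk => (p.2 k hk).trans (q.2 k (hk.trans hi)).symm
    · intro h
      exact h.2

lemma B_max (hX : ∀ k m, (X k m).Nonempty) (x : ℕ → ℕ) : IsMaxChain (· ≤ ·) (B X x) := by
  refine ⟨B_chain x, ?_⟩
  intro c hc hsub
  refine Set.Subset.antisymm hsub ?_
  intro q hq
  obtain ⟨k, hk⟩ : ∃ k : ℕ, q.i < (k : ℤ) := ⟨(q.i + 1).toNat, by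
    have := Int.self_le_toNat (q.i + 1)
    omega⟩
  obtain ⟨d, hd⟩ := hX k 0
  have hmem : d ∈ lab X x (k : ℤ) := ⟨0, Nat.zero_le _, hd⟩
  have hp : nd x k d hmem ∈ B X x := nd_mem _ _ _ _
  have hle : q ≤ nd x k d hmem := by
    by_cases he : q = nd x k d hmem
    · exact le_of_eq he
    · rcases hc hq (hsub hp) he with h | h
      · exact h
      · exfalso
        have h1 : (nd x k d hmem).i = (k : ℤ) := rfl
        rcases h.2 with h2 | h2 <;> omega
  intro k' hk'
  rw [hle.1 k' hk']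
  exact hp k' (by
    show (k' : ℤ) ≤ (k : ℤ)
    omega)

open Classical in
lemma max_B {c : Set (Nd X)} (hc : IsMaxChain (· ≤ ·) c) : ∃ x, c = B X x := by
  set x : ℕ → ℕ := fun k => if h : ∃ p ∈ c, (k : ℤ) ≤ p.i then (Classical.choose h).s k else 0
    with hx
  refine ⟨x, ?_⟩
  apply hc.2 (B_chain x)
  intro p hp k hk
  have h : ∃ p ∈ c, (k : ℤ) ≤ p.i := ⟨p, hp, hk⟩
  have h1 : x k = (Classical.choose h).s k := by
    simp only [hx]
    rw [dif_pos h]
  obtain ⟨h2, h3⟩ := Classical.choose_spec h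
  rw [h1]
  by_cases he : p = Classical.choose h
  · rw [← he]
  · rcases hc.1 hp h2 he with h4 | h4
    · exact h4.1 k hk
    · exact (h4.1 k h3).symm

theorem tree : S_TREE := by
  intro X hX
  refine ⟨Nd X, ndOrder X, ?_, ?_, B X, ?_, ?_⟩
  · intro t p hp q hq _
    have hp' : p < t := hp
    have hq' : q < t := hq
    have h1 : p ≤ t := hp'.le
    have h2 : q ≤ t := hq'.le
    exact cmp (x := t.s) h1.1 h2.1
  · obtain ⟨g, hg⟩ := exists_surjective_nat (List ℕ × ℤ)
    refine ⟨fun n => {p | p.i = (g n).2 ∧ Agr p (fun k => (g n).1.getD k 0)}, ?_, ?_⟩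
    · intro n p hp q hq _
      exact cmp hp.2 hq.2
    · rw [Set.eq_univ_iff_forall]
      intro p
      obtain ⟨n, hn⟩ := hg ((List.range (p.i + 1).toNat).map p.s, p.i)
      rw [Set.mem_iUnion]
      refine ⟨n, ?_, ?_⟩
      · rw [hn]
      · intro k hk
        rw [hn]
        have h1 : k < (p.i + 1).toNat := by omega
        simp [List.getD_eq_getElem?_getD, h1]
  · intro c
    constructor
    · exact max_B
    · rintro ⟨x, rfl⟩
      exact B_max hX x
  · intro x
    exact ⟨iso x⟩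

end Pool.Agent.W804.BR.Tree
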